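import Pool.Agent.H24.GG.Gen

/-!
# Theorem (H0), MP_c59857_nt: from the finite form with an absolute constant to the Furstenberg
systems, for any bounded sequence
-/

set_option autoImplicit false

open MeasureTheory ProbabilityTheory Filter Topology Finset
open scoped ENNReal

namespace Pool.Agent.H24.GH

open Pool.Agent.H89.MT (I1 X pt lavg QuasiGeneric z1)
open Pool.Agent.H83.W (S S_cont qg_mp)
open Pool.Agent.H6.N4D (ee norm_ee ee_add)
open Pool.Agent.H93.EB (lg Base)
open Pool.Agent.H24.EG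
open Pool.Agent.H24.GG

/-- the finite form with the constant `c` for the sequence `f` -/
def GHf (c : ℝ) (f : ℕ → ℂ) : Prop := ∀ R : ℕ, ∃ H₀ K : ℕ, ∀ H X : ℕ, H₀ ≤ H → H ^ K ≤ X →
  ∀ (b : ℕ → ℕ → ℂ) (β : ℕ → ℕ → ℝ), (∀ n r, ‖b n r‖ ≤ 1) →
    c * Real.log X < ∑ n ∈ Icc 1 X, 1 / (n : ℝ) * ((∑ h ∈ Icc 1 H,
      ‖f (n + h) - ∑ r ∈ range R,
        b n r * Complex.exp (2 * Real.pi * Complex.I * (β n r * h))‖ ^ 2) / H)

/-- the finite form excludes a base -/
theorem no_base {c : ℝ} (f : ℕ → ℂ) (lam : ℕ → ℝ) (hf : ∀ n, 0 < n → (lam n : ℂ) = f n)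
    (hG : GHf c f) (R : ℕ) : ∃ H₀ : ℕ, ∀ H, H₀ ≤ H → ∃ X₀ : ℕ, ∀ X, X₀ ≤ X →
      ¬ Base lam R H c X := by
  obtain ⟨H₀, K, h⟩ := hG R
  refine ⟨H₀, fun H hH => ⟨H ^ K, fun X hX => ?_⟩⟩
  rintro ⟨b, β, hb, hB⟩
  have h1 := h H X hH hX (fun n r => b n r * ee (β n r * n)) β (fun n r => by
    rw [norm_mul, norm_ee, mul_one]
    exact hb n r)
  refine absurd h1 (not_lt.2 (le_trans (le_of_eq ?_) hB))
  unfold lg
  refine Finset.sum_congr rfl fun n hn => ?_
  beta_reduce
  rw [win_eq' f lam hf R H n (b n) (β n) (Finset.mem_Icc.1 hn).1, one_div, inv_mul_eq_div]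

/-- the mean over a Furstenberg system of the distance to the sums of `R` exponentials -/
theorem le_int_DX {c : ℝ} (lam : ℕ → ℝ) (u : ℕ → I1) (hu : ∀ n, 0 < n → lam n = (u n : ℝ))
    (κ : Measure X) [IsProbabilityMeasure κ] (hκ : QuasiGeneric u κ) (R H : ℕ)
    (hB : ∃ X₀ : ℕ, ∀ X, X₀ ≤ X → ¬ Base lam R H c X) : c ≤ ∫ x, DX R H x ∂κ := by
  by_contra hc
  rw [not_le] at hc
  obtain ⟨X₀, hX⟩ := hB
  obtain ⟨N, hN, hF⟩ := hκ.2
  have hlog : Tendsto (fun k => Real.log (N k)) atTop atTop :=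
    Real.tendsto_log_atTop.comp (tendsto_natCast_atTop_atTop.comp hN)
  set a := ∫ x, DX R H x ∂κ with ha
  have h1 := hF ⟨DX R H, DX_cont R H⟩
  simp only [ContinuousMap.coe_mk] at h1
  have h2 : a < (a + c) / 2 := by linarith
  obtain ⟨k, ⟨⟨hk, hk0⟩, hk3⟩, hk4⟩ := (((h1.eventually_lt_const h2).and
    (hlog.eventually_gt_atTop 0)).and (hN.eventually_ge_atTop 3)).and
    (hN.eventually_ge_atTop X₀) |>.exists
  refine hX (N k) hk4 ?_
  have h5 : lg (N k) (fun n => DX R H (pt u n)) ≤ (a + c) / 2 * Real.log (N k) := by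
    unfold lavg at hk
    rw [div_lt_iff₀ hk0] at hk
    exact hk.le
  have h6 := base_of lam hu R H (N k) hk3 (e' := (c - a) / 4) (by linarith) h5
  have h7 : (a + c) / 2 + 2 * ((c - a) / 4) = c := by ring
  rwa [h7] at h6

/-- truncation -/
theorem appr_of_lt {ν : Measure X} [IsProbabilityMeasure ν] {k : ℕ} {e : ℝ}
    (F : ℕ → X → ℂ) (θ : ℕ → ℝ)
    (h1 : ∀ r, Measurable (F r)) (h2 : ∀ r, Integrable (fun y => ‖F r y‖ ^ 2) ν)
    (h3 : ∀ r, ∀ᵐ y ∂ν, F r (S y) = ee (θ r) * F r y)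
    (h4 : ∫ y, ‖((y 0 : ℝ) : ℂ) - ∑ r ∈ range k, F r y‖ ^ 2 ∂ν < e) :
    ∃ m, Appr ν m e := by
  classical
  set T : ℕ → ℕ → X → ℂ := fun C r y => if ‖F r y‖ ≤ C then F r y else 0 with hT
  have hTm : ∀ C r, Measurable (T C r) := fun C r =>
    Measurable.ite (measurableSet_le (h1 r).norm measurable_const) (h1 r) measurable_const
  have hTb : ∀ C r y, ‖T C r y‖ ≤ C := by
    intro C r y
    simp only [hT]
    split_ifs with h
    · exact h
    · rw [norm_zero]; exact Nat.cast_nonneg C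
  have hTF : ∀ C r y, ‖T C r y‖ ≤ ‖F r y‖ := by
    intro C r y
    simp only [hT]
    split_ifs with h
    · exact le_rfl
    · rw [norm_zero]; exact norm_nonneg _
  have hTe : ∀ C r, ∀ᵐ y ∂ν, T C r (S y) = ee (θ r) * T C r y := by
    intro C r
    filter_upwards [h3 r] with y hy
    simp only [hT]
    rw [hy, norm_mul, norm_ee, one_mul]
    split_ifs with h
    · rfl
    · rw [mul_zero]
  have hc0 : Measurable fun y : X => ((y 0 : ℝ) : ℂ) := c0_meas 0
  have hlim : Tendsto (fun C : ℕ => ∫ y, ‖((y 0 : ℝ) : ℂ) - ∑ r ∈ range k, T C r y‖ ^ 2 ∂ν) atTop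
      (𝓝 (∫ y, ‖((y 0 : ℝ) : ℂ) - ∑ r ∈ range k, F r y‖ ^ 2 ∂ν)) := by
    refine tendsto_integral_of_dominated_convergence
      (fun y => ((k : ℝ) + 1) * (1 + ∑ r ∈ range k, ‖F r y‖ ^ 2)) ?_ ?_ ?_ ?_
    · intro C
      exact (((hc0.sub (Finset.measurable_fun_sum _ fun r _ => hTm C r)).norm).pow_const
        2).aestronglyMeasurable
    · exact ((integrable_const _).add (integrable_finsetSum _ fun r _ => h2 r)).const_mul _
    · intro C
      refine Eventually.of_forall fun y => ?_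
      rw [Real.norm_eq_abs, abs_of_nonneg (by positivity)]
      have h5 : ‖((y 0 : ℝ) : ℂ) - ∑ r ∈ range k, T C r y‖ ≤ ∑ r ∈ range (k + 1),
          (if r < k then ‖F r y‖ else 1) := by
        rw [Finset.sum_range_succ, if_neg (lt_irrefl k)]
        refine (norm_sub_le _ _).trans ?_
        rw [add_comm]
        refine add_le_add ?_ ?_
        · refine (norm_sum_le _ _).trans (Finset.sum_le_sum fun r hr => ?_)
          rw [if_pos (Finset.mem_range.1 hr)]
          exact hTF C r y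
        · rw [Complex.norm_real, Real.norm_eq_abs]; exact abs_x y 0
      have h6 := sq_sum_le_card_mul_sum_sq (s := range (k + 1))
        (f := fun r => if r < k then ‖F r y‖ else 1)
      rw [card_range] at h6
      calc ‖((y 0 : ℝ) : ℂ) - ∑ r ∈ range k, T C r y‖ ^ 2
          ≤ (∑ r ∈ range (k + 1), (if r < k then ‖F r y‖ else 1)) ^ 2 :=
            pow_le_pow_left₀ (norm_nonneg _) h5 2
        _ ≤ ((k + 1 : ℕ) : ℝ) * ∑ r ∈ range (k + 1), (if r < k then ‖F r y‖ else 1) ^ 2 := h6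
        _ = ((k : ℝ) + 1) * (1 + ∑ r ∈ range k, ‖F r y‖ ^ 2) := by
            rw [Finset.sum_range_succ, if_neg (lt_irrefl k), one_pow, add_comm (1 : ℝ)]
            push_cast
            congr 2
            refine Finset.sum_congr rfl fun r hr => ?_
            rw [if_pos (Finset.mem_range.1 hr)]
    · refine Eventually.of_forall fun y => ?_
      refine tendsto_const_nhds.congr' ?_
      obtain ⟨N, hN⟩ := exists_nat_ge (∑ r ∈ range k, ‖F r y‖)
      filter_upwards [eventually_ge_atTop N] with C hC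
      congr 3
      refine Finset.sum_congr rfl fun r hr => ?_
      simp only [hT]
      rw [if_pos]
      calc ‖F r y‖ ≤ ∑ r ∈ range k, ‖F r y‖ :=
            Finset.single_le_sum (f := fun r => ‖F r y‖) (fun i _ => norm_nonneg _) hr
        _ ≤ N := hN
        _ ≤ C := by exact_mod_cast hC
  obtain ⟨C, hC, hC1⟩ := ((hlim.eventually_lt_const h4).and (eventually_ge_atTop 1)).exists
  exact ⟨k * C, appr_of_bdd (by omega) (T C) θ (hTm C) (hTb C) (hTe C) hC.le⟩

/-- more exponentials are closer -/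
theorem DX_anti (H : ℕ) (y : X) : Antitone fun R => DX R H y := by
  refine antitone_nat_of_succ_le fun R => ?_
  refine le_ciInf fun b => ?_
  set b' : Par := ⟨fun r => if r < R then b.1 r else (0, 0), fun r => by
    by_cases h : r < R
    · simp only [h, if_true]; exact b.2 r
    · simp only [h, if_false]; simp⟩ with hb'
  refine (DX_le (R + 1) H y b').trans (le_of_eq ?_)
  unfold dd
  congr 1
  refine Finset.sum_congr rfl fun m _ => ?_
  congr 3
  unfold ex
  rw [Finset.sum_range_succ]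
  have h1 : (b'.1 R).1 = 0 := by
    simp only [hb', lt_irrefl, if_false]
  rw [h1, zero_mul, add_zero]
  refine Finset.sum_congr rfl fun r hr => ?_
  have h2 : b'.1 r = b.1 r := by
    simp only [hb', Finset.mem_range.1 hr, if_true]
  rw [h2]

/-- the mean over a component -/
noncomputable def gg (κ : Measure X) [IsProbabilityMeasure κ] (m H : ℕ) (x : X) : ℝ :=
  ∫ y, DX m H y ∂comp κ x

section gg

variable (κ : Measure X) [IsProbabilityMeasure κ]

theorem gg_meas (m H : ℕ) : Measurable (gg κ m H) := by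
  have h3 := StronglyMeasurable.integral_condExpKernel (μ := κ) (m := IS)
    (DX_cont m H).measurable.stronglyMeasurable
  exact (h3.mono IS_le).measurable

theorem gg_nonneg (m H : ℕ) (x : X) : 0 ≤ gg κ m H x := integral_nonneg fun y => DX_nonneg _ _ y

theorem gg_le_one (m H : ℕ) (x : X) : gg κ m H x ≤ 1 := by
  have hP : IsProbabilityMeasure (comp κ x) := by unfold comp; infer_instance
  calc gg κ m H x ≤ ∫ _y, (1 : ℝ) ∂comp κ x := by
        refine integral_mono_of_nonneg (Eventually.of_forall fun y => DX_nonneg _ _ y)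
          (integrable_const _) (Eventually.of_forall fun y => DX_le_one _ _ y)
    _ = 1 := by simp

theorem gg_int (m H : ℕ) : ∫ x, gg κ m H x ∂κ = ∫ x, DX m H x ∂κ := by
  have hI : Integrable (DX m H) κ := by
    refine Integrable.of_bound (C := 1) (DX_cont m H).aestronglyMeasurable
      (Eventually.of_forall fun y => ?_)
    rw [Real.norm_eq_abs, abs_of_nonneg (DX_nonneg m H y)]
    exact DX_le_one m H y
  have h3 := condExp_ae_eq_integral_condExpKernel (μ := κ) IS_le hI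
  rw [← integral_condExp (μ := κ) (f := DX m H) IS_le]
  exact (integral_congr_ae h3).symm

theorem gg_anti (H : ℕ) (x : X) : Antitone fun m => gg κ m H x := by
  intro m m' h
  have hP : IsProbabilityMeasure (comp κ x) := by unfold comp; infer_instance
  refine integral_mono_of_nonneg (Eventually.of_forall fun y => DX_nonneg _ _ y) ?_
    (Eventually.of_forall fun y => DX_anti H y h)
  refine Integrable.of_bound (C := 1) (DX_cont m H).aestronglyMeasurable
    (Eventually.of_forall fun y => ?_)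
  rw [Real.norm_eq_abs, abs_of_nonneg (DX_nonneg m H y)]
  exact DX_le_one m H y

/-- the largest mean -/
noncomputable def gs (m : ℕ) (x : X) : ℝ := ⨆ H : ℕ, gg κ m (H + 1) x

theorem gs_bdd (m : ℕ) (x : X) : BddAbove (Set.range fun H : ℕ => gg κ m (H + 1) x) :=
  ⟨1, by rintro _ ⟨H, rfl⟩; exact gg_le_one κ m _ x⟩

theorem gs_meas (m : ℕ) : Measurable (gs κ m) := Measurable.iSup fun H => gg_meas κ m (H + 1)

theorem gg_le_gs (m H : ℕ) (hH : 0 < H) (x : X) : gg κ m H x ≤ gs κ m x := by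
  have := le_ciSup (gs_bdd κ m x) (H - 1)
  simp only [Nat.sub_add_cancel hH] at this
  exact this

theorem gs_nonneg (m : ℕ) (x : X) : 0 ≤ gs κ m x :=
  (gg_nonneg κ m 1 x).trans (gg_le_gs κ m 1 one_pos x)

theorem gs_le_one (m : ℕ) (x : X) : gs κ m x ≤ 1 := ciSup_le fun _ => gg_le_one κ m _ x

theorem gs_anti (x : X) : Antitone fun m => gs κ m x := by
  intro m m' h
  exact ciSup_le fun H => (gg_anti κ (H + 1) x h).trans (gg_le_gs κ m (H + 1) (Nat.succ_pos H) x)

/-- the lower bound for the squares of the distances -/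
noncomputable def gi (x : X) : ℝ := ⨅ m : ℕ, gs κ m x

theorem gi_bdd (x : X) : BddBelow (Set.range fun m : ℕ => gs κ m x) :=
  ⟨0, by rintro _ ⟨m, rfl⟩; exact gs_nonneg κ m x⟩

theorem gi_meas : Measurable (gi κ) := Measurable.iInf fun m => gs_meas κ m

theorem gi_nonneg (x : X) : 0 ≤ gi κ x := le_ciInf fun m => gs_nonneg κ m x

theorem gi_le_one (x : X) : gi κ x ≤ 1 := (ciInf_le (gi_bdd κ x) 0).trans (gs_le_one κ 0 x)

theorem gi_int {c : ℝ} (h : ∀ m : ℕ, ∃ H : ℕ, 0 < H ∧ c ≤ ∫ x, DX m H x ∂κ) :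
    c ≤ ∫ x, gi κ x ∂κ := by
  have hlim : Tendsto (fun m : ℕ => ∫ x, gs κ m x ∂κ) atTop (𝓝 (∫ x, gi κ x ∂κ)) := by
    refine tendsto_integral_of_dominated_convergence (fun _ => 1) ?_ (integrable_const _) ?_ ?_
    · exact fun m => (gs_meas κ m).aestronglyMeasurable
    · intro m
      refine Eventually.of_forall fun x => ?_
      rw [Real.norm_eq_abs, abs_of_nonneg (gs_nonneg κ m x)]
      exact gs_le_one κ m x
    · exact Eventually.of_forall fun x => tendsto_atTop_ciInf (gs_anti κ x) (gi_bdd κ x)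
  refine ge_of_tendsto' hlim fun m => ?_
  obtain ⟨H, hH, hc⟩ := h m
  refine hc.trans ?_
  rw [← gg_int κ m H]
  refine integral_mono_of_nonneg (Eventually.of_forall fun x => gg_nonneg κ m H x) ?_
    (Eventually.of_forall fun x => gg_le_gs κ m H hH x)
  refine Integrable.of_bound (C := 1) (gs_meas κ m).aestronglyMeasurable
    (Eventually.of_forall fun x => ?_)
  rw [Real.norm_eq_abs, abs_of_nonneg (gs_nonneg κ m x)]
  exact gs_le_one κ m x

end gg

/-- The square of the distance in `L²(ν)` from the coordinate `y 0` to the linear span of the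
eigenfunctions of the shift is at least `d`. -/
def Far (ν : Measure X) (d : ℝ) : Prop :=
  ∀ (k : ℕ) (θ : ℕ → ℝ) (F : ℕ → X → ℂ),
    (∀ i, Measurable (F i) ∧ Integrable (fun y => ‖F i y‖ ^ 2) ν ∧
      ∀ᵐ y ∂ν, F i (S y) = Complex.exp (2 * Real.pi * Complex.I * θ i) * F i y) →
    d ≤ ∫ y, ‖((y 0 : ℝ) : ℂ) - ∑ i ∈ Finset.range k, F i y‖ ^ 2 ∂ν

theorem far (κ : Measure X) [IsProbabilityMeasure κ] (hS : MeasurePreserving S κ κ) :
    ∀ᵐ x ∂κ, Far (comp κ x) (gi κ x) := by
  filter_upwards [comp_mp κ hS] with x hx k θ F h1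
  have hP : IsProbabilityMeasure (comp κ x) := by unfold comp; infer_instance
  refine le_of_forall_gt_imp_ge_of_dense fun e he => ?_
  have h3 : ∀ r, ∀ᵐ y ∂comp κ x, F r (S y) = ee (θ r) * F r y := by
    intro r
    filter_upwards [(h1 r).2.2] with y hy
    rw [hy, ee_exp]
  obtain ⟨m, hm⟩ := appr_of_lt F θ (fun r => (h1 r).1) (fun r => (h1 r).2.1) h3 he
  refine (ciInf_le (gi_bdd κ x) m).trans ?_
  exact ciSup_le fun _ => int_DX_le hx hm (Nat.succ_pos _)

/-- **The finite form gives the ergodic form**, for any sequence with values in `[-1, 1]` -/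
theorem fur_of {c : ℝ} (f : ℕ → ℂ) (hG : GHf c f) (u : ℕ → I1)
    (hu : ∀ n, 0 < n → ((u n : ℝ) : ℂ) = f n)
    (κ : Measure X) [IsProbabilityMeasure κ] (hκ : QuasiGeneric u κ) :
    ∃ G : X → ℝ, Measurable G ∧ (∀ x, 0 ≤ G x ∧ G x ≤ 1) ∧ c ≤ ∫ x, G x ∂κ ∧
      ∀ᵐ x ∂κ, Far (comp κ x) (G x) := by
  refine ⟨gi κ, gi_meas κ, fun x => ⟨gi_nonneg κ x, gi_le_one κ x⟩, gi_int κ fun m => ?_,
    far κ (qg_mp hκ)⟩
  obtain ⟨H₀, h⟩ := no_base f (fun n => (u n : ℝ)) hu hG m
  exact ⟨H₀ + 1, Nat.succ_pos _, le_int_DX (fun n => (u n : ℝ)) u (fun _ _ => rfl) κ hκ m (H₀ + 1)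
    (h _ (Nat.le_succ _))⟩

end Pool.Agent.H24.GH
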